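import Pool.Agent.Lib.MP_2eed13_lc.LCA.Api

/-!
# Module LSNUM
-/

set_option autoImplicit false

namespace Pool.Agent.Lib.MP_2eed13_lc.LCA.H79

open Finset Pool.Agent.Lib.MP_2eed13_lc.LCA

theorem isPrimeN_ls : LSf isPrimeN := by
  have h1 : LSf fun p : ℕ => ∑ d ∈ range p, if p % (d + 1) = 0 then 1 else 0 := by
    refine LSf.sum (n := fun p => p) (f := fun p d => if p % (d + 1) = 0 then 1 else 0) LSf.id ?_
    exact LSf.ite (P := fun p : ℕ × ℕ => p.1 % (p.2 + 1) = 0)
      (LSp.eq (LSf.mod (LSf.fst LSf.id) (LSf.succ (LSf.snd LSf.id))) (LSf.const 0))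
      (LSf.const 1) (LSf.const 0)
  refine (LSf.ite (P := fun p : ℕ => (∑ d ∈ range p, if p % (d + 1) = 0 then 1 else 0) = 2)
    (LSp.eq h1 (LSf.const 2)) (LSf.const 1) (LSf.const 0)).of_eq fun p => ?_
  rfl

theorem primeFor_ls : LSf primeFor := by
  -- the inner sum
  have h1 : LSf fun p : ℕ × ℕ => ∑ j ∈ range (p.2 + 1), isPrimeN (p.1 + j) := by
    refine LSf.sum (α := ℕ × ℕ) (n := fun p => p.2 + 1) (f := fun p j => isPrimeN (p.1 + j))
      (LSf.succ (LSf.snd LSf.id)) ?_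
    exact isPrimeN_ls.comp (LSf.add (LSf.fst (LSf.fst LSf.id)) (LSf.snd LSf.id))
  have h2 : LSf fun m : ℕ => ∑ i ∈ range (m + 2),
      if (∑ j ∈ range (i + 1), isPrimeN (m + j)) = 0 then 1 else 0 := by
    refine LSf.sum (n := fun m => m + 2)
      (f := fun m i => if (∑ j ∈ range (i + 1), isPrimeN (m + j)) = 0 then 1 else 0)
      (LSf.succ (LSf.succ LSf.id)) ?_
    exact LSf.ite (P := fun p : ℕ × ℕ => (∑ j ∈ range (p.2 + 1), isPrimeN (p.1 + j)) = 0)
      (LSp.eq h1 (LSf.const 0)) (LSf.const 1) (LSf.const 0)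
  exact (LSf.add LSf.id h2).of_eq fun m => rfl

theorem log_sum (n m : ℕ) (hm : m ≤ n) :
    (∑ i ∈ range m, if powc 2 (i + 1) (n + 1) ≤ n then 1 else 0) = Min.min m (Nat.log 2 n) := by
  induction m with
  | zero => simp
  | succ m ih =>
    rw [Finset.sum_range_succ, ih (by omega)]
    have e : powc 2 (m + 1) (n + 1) ≤ n ↔ m + 1 ≤ Nat.log 2 n := by
      have hn : n ≠ 0 := by omega
      rw [Nat.le_log_iff_pow_le (by norm_num) hn]
      unfold powc
      constructor
      · intro h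
        rcases min_le_iff.1 h with h | h
        · exact h
        · omega
      · intro h
        exact (Nat.min_le_left _ _).trans h
    by_cases h : m + 1 ≤ Nat.log 2 n
    · rw [if_pos (e.2 h)]
      omega
    · rw [if_neg (fun hh => h (e.1 hh))]
      omega

theorem log_ls : LSf (Nat.log 2) := by
  have h1 : LSf fun n : ℕ => ∑ i ∈ range n, if powc 2 (i + 1) (n + 1) ≤ n then 1 else 0 := by
    refine LSf.sum (n := fun n => n) (f := fun n i => if powc 2 (i + 1) (n + 1) ≤ n then 1 else 0)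
      LSf.id ?_
    exact LSf.ite (P := fun p : ℕ × ℕ => powc 2 (p.2 + 1) (p.1 + 1) ≤ p.1)
      (LSp.le (LSf.powc (LSf.const 2) (LSf.succ (LSf.snd LSf.id)) (LSf.succ (LSf.fst LSf.id)))
        (LSf.fst LSf.id)) (LSf.const 1) (LSf.const 0)
  refine h1.of_eq fun n => ?_
  rw [log_sum n n le_rfl]
  exact Nat.min_eq_right (Nat.log_le_self 2 n)

theorem width_ls : LSf width :=
  (LSf.div LSf.id ((LSf.succ log_ls).pow 2)).of_eq fun n => rfl

/-- module LSNUM -/
theorem lsnum : LSNumStatement :=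
  ⟨primeFor_ls, width_ls, log_ls, fun _ _ => ⟨fun _ _ _ hb he hC => LSf.powc hb he hC,
    fun _ _ _ hb hx hi => LSf.dig hb hx hi⟩⟩

end Pool.Agent.Lib.MP_2eed13_lc.LCA.H79
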